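import Mathlib
import Pool.Agent.W848.N2.Stm

/-!
# N2-DIG: closed walk through a digon (proof of `S_DIG`)
-/

set_option autoImplicit false

namespace Pool.Agent.W402.N2

open Finset
open Pool.Agent.W848.N2

theorem ht_zero {k : ℕ} (d : Fin k → Bool) : ht d 0 = 0 := by
  simp [ht]

theorem ht_succ {k : ℕ} (d : Fin k → Bool) (n : ℕ) (hn : n < k) :
    ht d (n + 1) = ht d n + sg (d ⟨n, hn⟩) := by
  unfold ht
  have h1 : ∀ i : Fin k, (if i.val < n + 1 then sg (d i) else 0)
      = (if i.val < n then sg (d i) else 0) + (if i = ⟨n, hn⟩ then sg (d i) else 0) := by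
    intro i
    by_cases h : i = ⟨n, hn⟩
    · subst h; simp
    · have h' : i.val ≠ n := fun hh => h (Fin.ext hh)
      by_cases h2 : i.val < n
      · have h3 : i.val < n + 1 := by omega
        simp [h, h2, h3]
      · have h3 : ¬ i.val < n + 1 := by omega
        simp [h, h2, h3]
  rw [Finset.sum_congr rfl (fun i _ => h1 i), Finset.sum_add_distrib]
  simp

theorem ht_last {k : ℕ} (d : Fin k → Bool) : ht d k = ∑ i, sg (d i) := by
  unfold ht
  apply Finset.sum_congr rfl
  intro i _
  simp [i.isLt]

theorem sum_pairs (g : ℕ → ℝ) (n : ℕ) :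
    ∑ i ∈ range (2 * n), g i = ∑ a ∈ range n, (g (2 * a) + g (2 * a + 1)) := by
  induction n with
  | zero => simp
  | succ n ih =>
    rw [show 2 * (n + 1) = 2 * n + 1 + 1 by ring, Finset.sum_range_succ, Finset.sum_range_succ, ih,
      Finset.sum_range_succ]
    ring

theorem sum_pairs' (g : ℕ → ℝ) (n : ℕ) :
    ∑ i ∈ range (2 * (n + 1)), g i
      = g 0 + ∑ a ∈ range n, (g (2 * a + 1) + g (2 * a + 2)) + g (2 * n + 1) := by
  induction n with
  | zero => simp [Finset.sum_range_succ]
  | succ n ih =>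
    rw [show 2 * (n + 1 + 1) = 2 * (n + 1) + 1 + 1 by ring, Finset.sum_range_succ,
      Finset.sum_range_succ, ih, Finset.sum_range_succ]
    rw [show 2 * (n + 1) = 2 * n + 2 by ring]
    ring

theorem sum_two (p : ℕ → ℝ) (n a1 a2 : ℕ) (c c' : ℝ) (h1 : a1 < n) (h2 : a2 < n) (h12 : a1 ≠ a2)
    (hp : ∀ a, a < n → p a ≤ c) (hp1 : p a1 ≤ c') (hp2 : p a2 ≤ c') :
    ∑ a ∈ range n, p a ≤ (n : ℝ) * c + 2 * (c' - c) := by
  have key : ∀ a ∈ range n, p a ≤ c + (if a = a1 then c' - c else 0) + (if a = a2 then c' - c else 0) := by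
    intro a ha
    by_cases e1 : a = a1
    · have e2 : a ≠ a2 := by rw [e1]; exact h12
      rw [if_pos e1, if_neg e2, e1]; linarith
    · by_cases e2 : a = a2
      · rw [if_neg e1, if_pos e2, e2]; linarith
      · rw [if_neg e1, if_neg e2]; linarith [hp a (Finset.mem_range.mp ha)]
  refine (Finset.sum_le_sum key).trans ?_
  rw [Finset.sum_add_distrib, Finset.sum_add_distrib]
  simp [h1, h2]
  linarith

section core

variable {V : Type} {R : V → V → Prop} {w : V → ℝ} {L : Set V} {t q : ℝ}

/-- the two-sided walk -/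
def zz (z : ℕ → V) (y : V) (a : ℤ) : V := if a ≤ 0 then z (-a).toNat else y

theorem zz_zero (z : ℕ → V) (y : V) : zz z y 0 = z 0 := by simp [zz]

theorem zz_one (z : ℕ → V) (y : V) : zz z y 1 = y := by simp [zz]

theorem zz_arc (z : ℕ → V) (y : V) (hz : ∀ n, R (z (n + 1)) (z n)) (hy : R (z 0) y)
    (a : ℤ) (ha : a ≤ 0) : R (zz z y a) (zz z y (a + 1)) := by
  unfold zz
  rw [if_pos ha]
  by_cases h : a = 0
  · subst h; simpa using hy
  · have h1 : a + 1 ≤ 0 := by omega
    rw [if_pos h1]
    have h2 : (-a).toNat = (-(a + 1)).toNat + 1 := by omega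
    rw [h2]; exact hz _

theorem zz_w (z : ℕ → V) (y : V) (hz : ∀ n, w (z n) ≤ q) (hy : w y ≤ q) (a : ℤ) :
    w (zz z y a) ≤ q := by
  unfold zz
  split_ifs
  · exact hz _
  · exact hy

theorem zz_L (z : ℕ → V) (y : V) (hz : ∀ n, z n ∈ L ∨ z (n + 1) ∈ L) (h0 : z 0 ∈ L)
    (a : ℤ) (ha : a ≤ 0) : zz z y a ∈ L ∨ zz z y (a + 1) ∈ L := by
  unfold zz
  rw [if_pos ha]
  by_cases h : a = 0
  · subst h; left; simpa using h0
  · have h1 : a + 1 ≤ 0 := by omega
    rw [if_pos h1]
    have h2 : (-a).toNat = (-(a + 1)).toNat + 1 := by omega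
    rw [h2]
    exact (hz _).symm

/-- adjacent heights weigh at most `t + q` -/
theorem zz_pair (z : ℕ → V) (y : V) (hL : ∀ v ∈ L, w v ≤ t) (hzw : ∀ n, w (z n) ≤ q) (hy : w y ≤ q)
    (hz : ∀ n, z n ∈ L ∨ z (n + 1) ∈ L) (h0 : z 0 ∈ L)
    (a b : ℤ) (hab : b = a + 1 ∨ a = b + 1) (ha : a ≤ 1) (hb : b ≤ 1) :
    w (zz z y a) + w (zz z y b) ≤ t + q := by
  have wa := zz_w (w := w) (q := q) z y hzw hy a
  have wb := zz_w (w := w) (q := q) z y hzw hy b
  rcases hab with h | h
  · subst h
    rcases zz_L z y hz h0 a (by omega) with h1 | h1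
    · have := hL _ h1; linarith
    · have := hL _ h1; linarith
  · subst h
    rcases zz_L z y hz h0 b (by omega) with h1 | h1
    · have := hL _ h1; linarith
    · have := hL _ h1; linarith

theorem core (m : ℕ) (hm : 3 ≤ m) (H : ℕ → ℤ) (D : ℕ → Bool) (H0 : H 0 = 0)
    (Hs : ∀ j, j < 2 * m → H (j + 1) = H j + sg (D j)) (H1 : ∀ j, j < 2 * m → H j ≤ 1)
    (Hk : H (2 * m) = 2)
    (hL : ∀ v ∈ L, w v ≤ t) (x s : V) (hx : x ∈ L) (hB : Back R L w q x)
    (hy : ∃ y, R x y ∧ w y ≤ q) (hxs : R x s) (hsx : R s x) :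
    ∃ F : ℕ → V, (∀ i, i + 1 < 2 * m → (D i = true → R (F i) (F (i + 1))) ∧
        (D i = false → R (F (i + 1)) (F i))) ∧
      ((D (2 * m - 1) = true → R (F (2 * m - 1)) (F 0)) ∧
        (D (2 * m - 1) = false → R (F 0) (F (2 * m - 1)))) ∧
      ∑ i ∈ range (2 * m), w (F i) ≤ w s + 3 * w x + ((m : ℝ) - 3) * t + ((m : ℝ) - 1) * q := by
  obtain ⟨z, z0, hz⟩ := hB
  obtain ⟨y, hxy, hyq⟩ := hy
  have hzR : ∀ n, R (z (n + 1)) (z n) := fun n => (hz n).1
  have hzw : ∀ n, w (z n) ≤ q := fun n => (hz n).2.1
  have hzL : ∀ n, z n ∈ L ∨ z (n + 1) ∈ L := fun n => (hz n).2.2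
  have z0L : z 0 ∈ L := by rw [z0]; exact hx
  have hyR : R (z 0) y := by rw [z0]; exact hxy
  have arc := zz_arc (R := R) z y hzR hyR
  have pair := zz_pair (w := w) (L := L) (t := t) (q := q) z y hL hzw hyq hzL z0L
  have wq := zz_w (w := w) (q := q) z y hzw hyq
  have e0 : zz z y 0 = x := by rw [zz_zero, z0]
  have e1 : zz z y 1 = y := zz_one z y
  -- steps
  have step : ∀ j, j < 2 * m → (D j = true ∧ H (j + 1) = H j + 1) ∨ (D j = false ∧ H (j + 1) = H j - 1) := by
    intro j hj
    have := Hs j hj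
    cases hD : D j
    · right; refine ⟨rfl, ?_⟩; rw [this, hD]; simp [sg]; ring
    · left; refine ⟨rfl, ?_⟩; rw [this, hD]; simp [sg]
  have par : ∀ j, j ≤ 2 * m → (H j - j) % 2 = 0 := by
    intro j
    induction j with
    | zero => intro _; simp [H0]
    | succ j ih =>
      intro hj
      have h1 := ih (by omega)
      rcases step j (by omega) with h | h
      · rw [h.2]; push_cast; omega
      · rw [h.2]; push_cast; omega
  -- the last letters
  have hk1 : H (2 * m - 1) = 1 ∧ D (2 * m - 1) = true := by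
    have h1 := H1 (2 * m - 1) (by omega)
    have h2 := step (2 * m - 1) (by omega)
    rw [show 2 * m - 1 + 1 = 2 * m by omega, Hk] at h2
    rcases h2 with h | h
    · exact ⟨by omega, h.1⟩
    · omega
  have hk2 : H (2 * m - 2) = 0 ∧ D (2 * m - 2) = true := by
    have h1 := H1 (2 * m - 2) (by omega)
    have h2 := step (2 * m - 2) (by omega)
    rw [show 2 * m - 2 + 1 = 2 * m - 1 by omega, hk1.1] at h2
    rcases h2 with h | h
    · exact ⟨by omega, h.1⟩
    · omega
  by_cases hA : ∃ a, a < m - 2 ∧ H (2 * a + 2) = 0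
  · obtain ⟨a0, ha0, hHa0⟩ := hA
    refine ⟨fun j => if j = 2 * m - 1 then s else zz z y (H j), ?_, ?_, ?_⟩
    · intro i hi
      have hi1 : i ≠ 2 * m - 1 := by omega
      simp only [if_neg hi1]
      by_cases hi2 : i + 1 = 2 * m - 1
      · simp only [if_pos hi2]
        have hi3 : i = 2 * m - 2 := by omega
        rw [hi3, hk2.1, hk2.2, e0]
        exact ⟨fun _ => hxs, fun h => by simp at h⟩
      · simp only [if_neg hi2]
        have hb := H1 i (by omega)
        have hb' := H1 (i + 1) (by omega)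
        rcases step i (by omega) with h | h
        · rw [h.1]
          refine ⟨fun _ => ?_, fun h' => by simp at h'⟩
          rw [h.2]; exact arc _ (by omega)
        · rw [h.1]
          refine ⟨fun h' => by simp at h', fun _ => ?_⟩
          have := arc (H (i + 1)) (by omega)
          rw [h.2] at this ⊢
          rwa [show H i - 1 + 1 = H i by ring] at this
    · rw [hk1.2]
      refine ⟨fun _ => ?_, fun h' => by simp at h'⟩
      have : (0 : ℕ) ≠ 2 * m - 1 := by omega
      simp only [if_neg this, if_true, H0, e0]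
      exact hsx
    · obtain ⟨n, rfl⟩ : ∃ n, m = n + 1 := ⟨m - 1, by omega⟩
      rw [sum_pairs']
      have hne0 : (0 : ℕ) ≠ 2 * (n + 1) - 1 := by omega
      have hlast : 2 * n + 1 = 2 * (n + 1) - 1 := by omega
      simp only [if_neg hne0, if_pos hlast, H0, e0]
      have hpairs := sum_two (fun a => w (if 2 * a + 1 = 2 * (n + 1) - 1 then s else zz z y (H (2 * a + 1)))
        + w (if 2 * a + 2 = 2 * (n + 1) - 1 then s else zz z y (H (2 * a + 2)))) n a0 (n - 1)
        (t + q) (w x + q) (by omega) (by omega) (by omega) ?_ ?_ ?_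
      · refine (add_le_add_left (add_le_add_right hpairs _) _).trans ?_
        push_cast
        nlinarith
      · intro a ha
        have h1 : 2 * a + 1 ≠ 2 * (n + 1) - 1 := by omega
        have h2 : 2 * a + 2 ≠ 2 * (n + 1) - 1 := by omega
        simp only [if_neg h1, if_neg h2]
        apply pair _ _ _ (H1 _ (by omega)) (H1 _ (by omega))
        rcases step (2 * a + 1) (by omega) with h | h
        · left; exact h.2
        · right; have := h.2; rw [show 2 * a + 1 + 1 = 2 * a + 2 by ring] at this; omega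
      · have h1 : 2 * a0 + 1 ≠ 2 * (n + 1) - 1 := by omega
        have h2 : 2 * a0 + 2 ≠ 2 * (n + 1) - 1 := by omega
        simp only [if_neg h1, if_neg h2, hHa0, e0]
        have := wq (H (2 * a0 + 1))
        linarith
      · have h1 : 2 * (n - 1) + 1 ≠ 2 * (n + 1) - 1 := by omega
        have h2 : 2 * (n - 1) + 2 ≠ 2 * (n + 1) - 1 := by omega
        have h3 : 2 * (n - 1) + 2 = 2 * (n + 1) - 2 := by omega
        have h4 : 2 * (n + 1) - 2 ≠ 2 * (n + 1) - 1 := by omega
        simp only [if_neg h1, h3, if_neg h4, hk2.1, e0]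
        have := wq (H (2 * (n - 1) + 1))
        linarith
  · push Not at hA
    have hev : ∀ j, 2 ≤ j → j ≤ 2 * m - 4 → j % 2 = 0 → H j ≤ -2 := by
      intro j h2 h3 h4
      have hp := par j (by omega)
      have hb := H1 j (by omega)
      have hn := hA ((j - 2) / 2) (by omega)
      rw [show 2 * ((j - 2) / 2) + 2 = j by omega] at hn
      omega
    have hall : ∀ j, 1 ≤ j → j ≤ 2 * m - 3 → H j ≤ -1 := by
      intro j h2 h3
      rcases Nat.mod_two_eq_zero_or_one j with h4 | h4
      · have := hev j (by omega) (by omega) h4; omega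
      · by_cases h5 : j = 2 * m - 3
        · have h6 := hev (j - 1) (by omega) (by omega) (by omega)
          have h7 := step (j - 1) (by omega)
          rw [show j - 1 + 1 = j by omega] at h7
          rcases h7 with h | h <;> omega
        · have h6 := hev (j + 1) (by omega) (by omega) (by omega)
          have h7 := step j (by omega)
          rcases h7 with h | h <;> omega
    have hh1 : H 1 = -1 := by
      have h1 := hall 1 (by omega) (by omega)
      have h2 := step 0 (by omega)
      rw [H0] at h2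
      simp only [zero_add] at h2
      rcases h2 with h | h <;> omega
    have hh3 : H (2 * m - 3) = -1 ∧ D (2 * m - 3) = true := by
      have h1 := hall (2 * m - 3) (by omega) (by omega)
      have h2 := step (2 * m - 3) (by omega)
      rw [show 2 * m - 3 + 1 = 2 * m - 2 by omega, hk2.1] at h2
      rcases h2 with h | h
      · exact ⟨by omega, h.1⟩
      · omega
    refine ⟨fun j => if j = 2 * m - 2 then s else if j = 2 * m - 1 then x else zz z y (H j + 1), ?_, ?_, ?_⟩
    · intro i hi
      have hi1 : i ≠ 2 * m - 1 := by omega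
      by_cases hi2 : i = 2 * m - 2
      · have hi3 : i + 1 ≠ 2 * m - 2 := by omega
        have hi4 : i + 1 = 2 * m - 1 := by omega
        simp only [if_pos hi2, if_neg hi3, if_pos hi4]
        rw [hi2, hk2.2]
        exact ⟨fun _ => hsx, fun h => by simp at h⟩
      · simp only [if_neg hi1, if_neg hi2]
        by_cases hi3 : i + 1 = 2 * m - 2
        · simp only [if_pos hi3]
          have hi4 : i = 2 * m - 3 := by omega
          rw [hi4, hh3.1, hh3.2, show (-1 : ℤ) + 1 = 0 by norm_num, e0]
          exact ⟨fun _ => hxs, fun h => by simp at h⟩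
        · have hi4 : i + 1 ≠ 2 * m - 1 := by omega
          simp only [if_neg hi3, if_neg hi4]
          have hb' := hall (i + 1) (by omega) (by omega)
          rcases step i (by omega) with h | h
          · rw [h.1]
            refine ⟨fun _ => ?_, fun h' => by simp at h'⟩
            rw [h.2]; exact arc _ (by omega)
          · rw [h.1]
            refine ⟨fun h' => by simp at h', fun _ => ?_⟩
            have hi0 : H i ≤ 0 := by
              have := h.2
              omega
            have := arc (H i) hi0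
            rw [h.2]
            rwa [show H i - 1 + 1 = H i by ring]
    · rw [hk1.2]
      refine ⟨fun _ => ?_, fun h' => by simp at h'⟩
      have h1 : (0 : ℕ) ≠ 2 * m - 1 := by omega
      have h2 : (0 : ℕ) ≠ 2 * m - 2 := by omega
      have h3 : 2 * m - 1 ≠ 2 * m - 2 := by omega
      simp only [if_neg h1, if_neg h2, if_neg h3, if_true, H0, zero_add, e1]
      exact hxy
    · obtain ⟨n, rfl⟩ : ∃ n, m = n + 1 := ⟨m - 1, by omega⟩
      rw [sum_pairs, Finset.sum_range_succ]
      have hl1 : 2 * n = 2 * (n + 1) - 2 := by omega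
      have hl2 : 2 * n + 1 ≠ 2 * (n + 1) - 2 := by omega
      have hl3 : 2 * n + 1 = 2 * (n + 1) - 1 := by omega
      simp only [if_pos hl1, if_neg hl2, if_pos hl3]
      have hpairs := sum_two (fun a => w (if 2 * a = 2 * (n + 1) - 2 then s else
          if 2 * a = 2 * (n + 1) - 1 then x else zz z y (H (2 * a) + 1))
        + w (if 2 * a + 1 = 2 * (n + 1) - 2 then s else
          if 2 * a + 1 = 2 * (n + 1) - 1 then x else zz z y (H (2 * a + 1) + 1))) n 0 (n - 1)
        (t + q) (w x + q) (by omega) (by omega) (by omega) ?_ ?_ ?_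
      · refine (add_le_add_left hpairs _).trans ?_
        push_cast
        nlinarith
      · intro a ha
        have h1 : 2 * a ≠ 2 * (n + 1) - 2 := by omega
        have h2 : 2 * a ≠ 2 * (n + 1) - 1 := by omega
        have h3 : 2 * a + 1 ≠ 2 * (n + 1) - 2 := by omega
        have h4 : 2 * a + 1 ≠ 2 * (n + 1) - 1 := by omega
        simp only [if_neg h1, if_neg h2, if_neg h3, if_neg h4]
        have hb1 := hall (2 * a + 1) (by omega) (by omega)
        have hb0 : H (2 * a) ≤ 0 := by
          by_cases ha0 : a = 0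
          · subst ha0; simp [H0]
          · have := hall (2 * a) (by omega) (by omega); omega
        apply pair _ _ _ (by omega) (by omega)
        rcases step (2 * a) (by omega) with h | h
        · left; rw [h.2]
        · right; have := h.2; omega
      · have h1 : 2 * 0 ≠ 2 * (n + 1) - 2 := by omega
        have h2 : 2 * 0 ≠ 2 * (n + 1) - 1 := by omega
        have h3 : 2 * 0 + 1 ≠ 2 * (n + 1) - 2 := by omega
        have h4 : 2 * 0 + 1 ≠ 2 * (n + 1) - 1 := by omega
        simp only [if_neg h1, if_neg h2, if_neg h3, if_neg h4]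
        simp only [mul_zero, zero_add, H0, hh1, e1]
        rw [show (-1 : ℤ) + 1 = 0 by norm_num, e0]
        linarith
      · have h1 : 2 * (n - 1) ≠ 2 * (n + 1) - 2 := by omega
        have h2 : 2 * (n - 1) ≠ 2 * (n + 1) - 1 := by omega
        have h3 : 2 * (n - 1) + 1 ≠ 2 * (n + 1) - 2 := by omega
        have h4 : 2 * (n - 1) + 1 ≠ 2 * (n + 1) - 1 := by omega
        have h5 : 2 * (n - 1) + 1 = 2 * (n + 1) - 3 := by omega
        simp only [if_neg h1, if_neg h2, if_neg h3, if_neg h4]
        rw [h5, hh3.1, show (-1 : ℤ) + 1 = 0 by norm_num, e0]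
        have := wq (H (2 * (n - 1)) + 1)
        linarith

end core

theorem t_DIG : Pool.Agent.W848.N2.S_DIG := by
  intro m hm d hd1 hd2 V R w L t q hL _htq x s hx hB hy hxs hsx
  have hpos : 0 < 2 * m := by omega
  let D : ℕ → Bool := fun j => if h : j < 2 * m then d ⟨j, h⟩ else true
  have hD : ∀ i : Fin (2 * m), D i.val = d i := by
    intro i
    simp only [D, dif_pos i.isLt]
  obtain ⟨F, hF1, hF2, hF3⟩ := core (R := R) (w := w) (L := L) (t := t) (q := q) m hm (ht d) D (ht_zero d)
    (by
      intro j hj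
      rw [ht_succ d j hj]
      simp only [D, dif_pos hj])
    hd1 (by rw [ht_last]; exact hd2) hL x s hx hB hy hxs hsx
  refine ⟨fun i => F i.val, ?_, ?_⟩
  · intro i j hij
    rw [← hD i]
    show (D i.val = true → R (F i.val) (F j.val)) ∧ (D i.val = false → R (F j.val) (F i.val))
    by_cases hi : i.val + 1 < 2 * m
    · rw [Nat.mod_eq_of_lt hi] at hij
      have := hF1 i.val hi
      rw [hij]
      exact this
    · have hi2 : i.val = 2 * m - 1 := by have := i.isLt; omega
      have hj : j.val = 0 := by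
        rw [hij, show i.val + 1 = 2 * m by omega, Nat.mod_self]
      rw [hj, hi2]
      exact hF2
  · have : ∑ i : Fin (2 * m), w (F i.val) = ∑ i ∈ range (2 * m), w (F i) :=
      Fin.sum_univ_eq_sum_range (fun i => w (F i)) (2 * m)
    rw [this]
    exact hF3

end Pool.Agent.W402.N2
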